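import Pool.Agent.Helper88.TU.Size
import Pool.Agent.Helper5.GM.SU
import Pool.Agent.Helper31.RR.CB

/-!
# MP_69be96_nt, project TU, packet SU: a bound for the weight at an integer with few rough points
-/

set_option autoImplicit false

open Finset Filter Topology

open scoped Classical

namespace Pool.Agent.Helper80.TU

open Pool.Agent.Helper88.TU
open Pool.Agent.Helper5.GM (card_large abs_vv_le sum_label)
open Pool.Agent.Helper88.PP (pr Rg om Sf SS uu vv ee LA VV QQ cost nc dd)
open Pool.Agent.Helper88.RR (gg ab TB WB nz wb DB Db VM GB)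
open Pool.Agent.Helper85.RR (ab_nonneg card_TB mem_TB)
open Pool.Agent.Helper3.PP (mem_SS mem_LA sumBB)

/-- the sum over the small subsets of `R` -/
theorem sum_sub {ι : Type} [Fintype ι] (R : Finset ι) (K : ℕ) (Lam : ℝ) (hLam : 0 ≤ Lam) :
    ∑ B ∈ (univ : Finset (Finset ι)).filter (fun B => B ⊆ R ∧ B.card ≤ K), Lam ^ B.card ≤
      (1 + R.card * Lam) ^ K := by
  have h1 : ∑ B ∈ (univ : Finset (Finset ι)).filter (fun B => B ⊆ R ∧ B.card ≤ K),
      Lam ^ B.card =
      ∑ B ∈ (univ : Finset (Finset R)).filter (fun B => (∅ : Finset R) ⊆ B ∧ B.card ≤ K),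
        Lam ^ B.card := by
    refine Finset.sum_nbij' (fun B => B.subtype (· ∈ R))
      (fun B => B.map (Function.Embedding.subtype _)) ?_ ?_ ?_ ?_ ?_
    · intro B hB
      obtain ⟨h2, h3⟩ := (Finset.mem_filter.1 hB).2
      refine Finset.mem_filter.2 ⟨Finset.mem_univ _, Finset.empty_subset _, ?_⟩
      rw [Finset.card_subtype]
      exact (Finset.card_filter_le _ _).trans h3
    · intro B hB
      obtain ⟨_, h3⟩ := (Finset.mem_filter.1 hB).2
      refine Finset.mem_filter.2 ⟨Finset.mem_univ _, ?_, ?_⟩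
      · intro i hi
        obtain ⟨a, _, rfl⟩ := Finset.mem_map.1 hi
        exact a.2
      · rw [Finset.card_map]
        exact h3
    · intro B hB
      obtain ⟨h2, _⟩ := (Finset.mem_filter.1 hB).2
      ext i
      simp only [Finset.mem_map, Finset.mem_subtype, Function.Embedding.coe_subtype,
        Subtype.exists, exists_and_right, exists_eq_right]
      constructor
      · rintro ⟨_, h4⟩
        exact h4
      · intro h4
        exact ⟨h2 h4, h4⟩
    · intro B _
      ext i
      simp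
    · intro B hB
      obtain ⟨h2, _⟩ := (Finset.mem_filter.1 hB).2
      rw [Finset.card_subtype, Finset.filter_true_of_mem (fun i hi => h2 hi)]
  rw [h1]
  have h5 := sumBB (ι := R) ∅ K Lam hLam
  rw [Finset.card_empty, pow_zero, one_mul, Fintype.card_coe] at h5
  exact h5

/-- the sum over the label functions with few nonzero labels, all on `R` -/
theorem sum_labels {P : Finset ℕ} {L : Finset ℕ} (T : Finset (P → ℕ)) (K : ℕ) (Lam : ℝ)
    (R : Finset P)
    (t : P → ℕ → ℝ) (hLam : 0 ≤ Lam) (hT : ∀ r ∈ T, ∀ i, r i = 0 ∨ r i ∈ L)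
    (hK : ∀ r ∈ T, nz r ≤ K) (ht0 : ∀ i, t i 0 = 1) (ht : ∀ i s, 0 ≤ t i s)
    (hS : ∀ i ∈ R, ∑ s ∈ L, t i s ≤ Lam) (hR : ∀ i, i ∉ R → ∀ s ∈ L, t i s = 0) :
    ∑ r ∈ T, ∏ i, t i (r i) ≤ (1 + R.card * Lam) ^ K := by
  set BB := (univ : Finset (Finset P)).filter (fun B => (∅ : Finset P) ⊆ B ∧ B.card ≤ K) with hBB
  have h1 : ∑ r ∈ T, ∏ i, t i (r i) =
      ∑ B ∈ BB, ∑ r ∈ T.filter (fun r => univ.filter (fun i => r i ≠ 0) = B), ∏ i, t i (r i) := by
    refine (Finset.sum_fiberwise_of_maps_to (fun r hr => ?_) _).symm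
    rw [hBB, Finset.mem_filter]
    exact ⟨Finset.mem_univ _, Finset.empty_subset _, hK r hr⟩
  rw [h1]
  have h2 : ∀ B ∈ BB, ∑ r ∈ T.filter (fun r => univ.filter (fun i => r i ≠ 0) = B),
      ∏ i, t i (r i) ≤ if B ⊆ R then Lam ^ B.card else 0 := by
    intro B _
    have h3 : T.filter (fun r => univ.filter (fun i => r i ≠ 0) = B) ⊆
        Fintype.piFinset (fun i : P => if i ∈ B then L else {0}) := by
      intro r hr
      obtain ⟨hr1, hr2⟩ := Finset.mem_filter.1 hr
      rw [Fintype.mem_piFinset]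
      intro i
      by_cases hi : i ∈ B
      · rw [if_pos hi]
        rw [← hr2, Finset.mem_filter] at hi
        exact (hT r hr1 i).resolve_left hi.2
      · rw [if_neg hi, Finset.mem_singleton]
        by_contra h4
        apply hi
        rw [← hr2, Finset.mem_filter]
        exact ⟨Finset.mem_univ _, h4⟩
    calc ∑ r ∈ T.filter (fun r => univ.filter (fun i => r i ≠ 0) = B), ∏ i, t i (r i)
        ≤ ∑ r ∈ Fintype.piFinset (fun i : P => if i ∈ B then L else {0}), ∏ i, t i (r i) :=
          Finset.sum_le_sum_of_subset_of_nonneg h3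
            (fun r _ _ => Finset.prod_nonneg fun i _ => ht i _)
      _ = ∏ i : P, ∑ s ∈ (if i ∈ B then L else {0}), t i s :=
          (Finset.prod_univ_sum (fun i : P => if i ∈ B then L else {0}) t).symm
      _ ≤ if B ⊆ R then Lam ^ B.card else 0 := by
          by_cases hBR : B ⊆ R
          · rw [if_pos hBR]
            calc ∏ i : P, ∑ s ∈ (if i ∈ B then L else {0}), t i s
                ≤ ∏ i : P, (if i ∈ B then Lam else 1) := by
                  refine Finset.prod_le_prod (fun i _ => Finset.sum_nonneg fun s _ => ht i s)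
                    fun i _ => ?_
                  split_ifs with hi
                  · exact hS i (hBR hi)
                  · rw [Finset.sum_singleton, ht0]
              _ = Lam ^ B.card := by
                  rw [Finset.prod_ite_mem, Finset.univ_inter, Finset.prod_const]
          · rw [if_neg hBR]
            obtain ⟨i, hi, hiR⟩ := Finset.not_subset.1 hBR
            refine le_of_eq (Finset.prod_eq_zero (Finset.mem_univ i) ?_)
            rw [if_pos hi]
            exact Finset.sum_eq_zero fun s hs => hR i hiR s hs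
  refine (Finset.sum_le_sum h2).trans ?_
  rw [← Finset.sum_filter]
  refine le_trans (le_of_eq ?_) (sum_sub R K Lam hLam)
  refine Finset.sum_congr ?_ fun _ _ => rfl
  ext B
  simp only [hBB, Finset.mem_filter, Finset.mem_univ, true_and, Finset.empty_subset]
  exact and_comm

/-- numerics: the number of rough points -/
theorem num_card {E R : ℕ} (hE : 1000 ≤ E) (hR : R ≤ E ^ 3) :
    (R : ℝ) ≤ Real.exp (2 * E) := by
  have hEr : (1000 : ℝ) ≤ E := by exact_mod_cast hE
  have h1 : (R : ℝ) ≤ (E : ℝ) ^ 3 := by exact_mod_cast hR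
  have h2 : (E : ℝ) / 2 ≤ Real.exp (E / 2) := by
    have := Real.add_one_le_exp ((E : ℝ) / 2)
    linarith
  have h3 : Real.exp (2 * E) = Real.exp (E / 2) ^ 4 := by
    rw [← Real.exp_nat_mul]
    congr 1
    push_cast
    ring
  have h4 : ((E : ℝ) / 2) ^ 4 ≤ Real.exp (E / 2) ^ 4 :=
    pow_le_pow_left₀ (by positivity) h2 4
  rw [h3]
  refine h1.trans (le_trans ?_ h4)
  have h5 : ((E : ℝ) / 2) ^ 4 = E ^ 3 * (E / 16) := by ring
  rw [h5]
  have h6 : (1 : ℝ) ≤ E / 16 := by linarith
  have h7 : (0 : ℝ) ≤ (E : ℝ) ^ 3 := by positivity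
  exact le_mul_of_one_le_right h7 h6

/-- numerics: the base -/
theorem num_base {E R : ℕ} {C : ℝ} (hE : 1000 ≤ E) (hR : R ≤ E ^ 3) (hC0 : 0 < C)
    (hCE : Real.log C ≤ E) :
    1 + (R : ℝ) * (C * 2 ^ E) ≤ Real.exp (4 * E + 1) := by
  have hPE := num_card hE hR
  have h1 : C ≤ Real.exp E := by
    rw [← Real.log_le_iff_le_exp hC0]
    exact hCE
  have h2 : (2 : ℝ) ^ E ≤ Real.exp E := by
    have h3 : (2 : ℝ) ≤ Real.exp 1 := by
      have := Real.add_one_le_exp (1 : ℝ)
      linarith
    calc (2 : ℝ) ^ E ≤ Real.exp 1 ^ E := pow_le_pow_left₀ (by norm_num) h3 E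
      _ = Real.exp E := by rw [← Real.exp_nat_mul, mul_one]
  have h4 : (R : ℝ) * (C * 2 ^ E) ≤ Real.exp (4 * E) := by
    calc (R : ℝ) * (C * 2 ^ E) ≤ Real.exp (2 * E) * (Real.exp E * Real.exp E) := by
          refine mul_le_mul hPE ?_ (by positivity) (Real.exp_pos _).le
          exact mul_le_mul h1 h2 (by positivity) (Real.exp_pos _).le
      _ = Real.exp (4 * E) := by
          rw [← Real.exp_add, ← Real.exp_add]
          congr 1
          ring
  have h5 : 1 ≤ Real.exp (4 * (E : ℝ)) := Real.one_le_exp (by positivity)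
  have h6 : (2 : ℝ) ≤ Real.exp 1 := by
    have := Real.add_one_le_exp (1 : ℝ)
    linarith
  rw [Real.exp_add]
  calc 1 + (R : ℝ) * (C * 2 ^ E) ≤ Real.exp (4 * E) + Real.exp (4 * E) := add_le_add h5 h4
    _ = Real.exp (4 * E) * 2 := by ring
    _ ≤ Real.exp (4 * E) * Real.exp 1 := mul_le_mul_of_nonneg_left h6 (Real.exp_pos _).le

/-- numerics: the exponent -/
theorem num_exp {E K : ℕ} (hE : 1000 ≤ E) (hK : (K + 1) ^ 3 ≤ E) : (K : ℝ) ≤ E / 100 := by
  have hEr : (1000 : ℝ) ≤ E := by exact_mod_cast hE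
  by_contra h1
  push Not at h1
  have h2 : ((K : ℝ) + 1) ^ 3 ≤ E := by exact_mod_cast hK
  have h3 : ((E : ℝ) / 100) ^ 3 < ((K : ℝ) + 1) ^ 3 :=
    pow_lt_pow_left₀ (by linarith) (by positivity) (by norm_num)
  have h4 : (E : ℝ) ≤ (E / 100) ^ 3 := by
    have h5 : (10 : ℝ) ^ 6 ≤ (E : ℝ) ^ 2 := by nlinarith
    have h6 : ((E : ℝ) / 100) ^ 3 = E * (E ^ 2 / 10 ^ 6) := by ring
    rw [h6]
    have h7 : (1 : ℝ) ≤ (E : ℝ) ^ 2 / 10 ^ 6 := by
      rw [le_div_iff₀ (by norm_num)]
      linarith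
    exact le_mul_of_one_le_right (by linarith) h7
  linarith

/-- numerics: the end -/
theorem num_end {E K R : ℕ} {C : ℝ} (hE : 1000 ≤ E) (hR : R ≤ E ^ 3) (hC0 : 0 < C)
    (hCE : Real.log C ≤ E) (hK : (K + 1) ^ 3 ≤ E) :
    ((1 + (R : ℝ) * (C * 2 ^ E)) ^ K) ^ 2 ≤ Real.exp ((E : ℝ) ^ 2 / 2) := by
  have hEr : (1000 : ℝ) ≤ E := by exact_mod_cast hE
  have hbase := num_base hE hR hC0 hCE
  have hKE := num_exp hE hK
  have hpos : 0 ≤ 1 + (R : ℝ) * (C * 2 ^ E) := by positivity
  calc ((1 + (R : ℝ) * (C * 2 ^ E)) ^ K) ^ 2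
      ≤ (Real.exp (4 * E + 1) ^ K) ^ 2 :=
        pow_le_pow_left₀ (by positivity) (pow_le_pow_left₀ hpos hbase K) 2
    _ = Real.exp (2 * (K * (4 * E + 1))) := by
        rw [← Real.exp_nat_mul, ← Real.exp_nat_mul]
        norm_num
    _ ≤ Real.exp ((E : ℝ) ^ 2 / 2) := by
        refine Real.exp_le_exp.2 ?_
        have h1 : (K : ℝ) * (4 * E + 1) ≤ E / 100 * (4 * E + 1) :=
          mul_le_mul_of_nonneg_right hKE (by positivity)
        nlinarith

theorem su : StmtSU := by
  obtain ⟨C, hC1, hC⟩ := Pool.Agent.Helper31.RR.cb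
  obtain ⟨E1, hsize⟩ := size
  refine ⟨E1 + 1000 + ⌈C⌉₊ + ⌈Real.log C⌉₊,
    fun E z x y hE hSr m q hm hqm hVV hK P hP n hn hR => ?_⟩
  obtain ⟨_, _, _, _, _, _, _, _, hyz, hz64, _, _, _, _⟩ := hsize E z x y (by omega) hSr
  obtain ⟨s1, s2, s3, s4, s5⟩ := hSr
  have hE1 : 1000 ≤ E := by omega
  have hE2 : Real.log C ≤ E := by
    refine (Nat.le_ceil _).trans ?_
    exact_mod_cast (by omega : ⌈Real.log C⌉₊ ≤ E)
  have hEr : (1000 : ℝ) ≤ E := by exact_mod_cast hE1
  have hEz : E ≤ z := by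
    have h1 : (E : ℝ) ≤ z := by
      have := Real.add_one_le_exp (E : ℝ)
      linarith
    exact_mod_cast h1
  have hz2 : 2 ≤ z := by omega
  set M := E / 16 with hM
  set K := M / m with hKdef
  set R : Finset P := univ.filter (fun i => Rg y z (n + (i : ℕ))) with hRdef
  have hRcard : R.card ≤ E ^ 3 := by
    refine le_trans (le_of_eq ?_) hR
    have : (P.filter (fun h => Rg y z (n + h))) = R.map (Function.Embedding.subtype _) := by
      ext i
      simp only [hRdef, Finset.mem_map, Finset.mem_filter, Finset.mem_univ, true_and,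
        Function.Embedding.coe_subtype, Subtype.exists, exists_and_left, exists_prop,
        exists_eq_right_right]
      exact and_comm
    rw [this, Finset.card_map]
  -- one point
  have hS : ∀ i : P, ∑ s ∈ LA z m (q * m), ab m q z s * |vv y z s (n + (i : ℕ))| ≤ C * 2 ^ E := by
    intro i
    have hi := Finset.mem_Icc.1 (hP i.2)
    refine sum_label (fun d hd => ?_) (by linarith) (by omega) (card_large (by omega) ?_)
    · exact (hC m q (q * m) z hm hz2 (by omega) hVV d hd).1
    · have h1 : n + (i : ℕ) < (z + 1) ^ E + z := by omega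
      have h2 : (z + 1) ^ E + z ≤ (z + 1) ^ (E + 1) := by
        rw [pow_succ]
        have h3 : 1 ≤ (z + 1) ^ E := Nat.one_le_pow _ _ (by omega)
        nlinarith
      omega
  -- the sum
  have hW : |WB m q M z y P n| ≤ (1 + R.card * (C * 2 ^ E)) ^ K := by
    unfold WB
    refine (Finset.abs_sum_le_sum_abs _ _).trans ?_
    have h1 : ∀ r ∈ TB m q M z P,
        |∏ i : P, ((if r i = 0 then 1 else - ab m q z (r i)) * vv y z (r i) (n + (i : ℕ)))| =
        ∏ i : P, (fun (i : P) (s : ℕ) => if s = 0 then (1 : ℝ) else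
          ab m q z s * |vv y z s (n + (i : ℕ))|) i (r i) := by
      intro r _
      rw [Finset.abs_prod]
      refine Finset.prod_congr rfl fun i _ => ?_
      simp only
      split_ifs with h0
      · rw [h0, one_mul]
        unfold vv
        rw [if_pos rfl, abs_one]
      · rw [abs_mul, abs_neg, abs_of_nonneg (ab_nonneg _ _ _ _)]
    rw [Finset.sum_congr rfl h1]
    have hne : ∀ s ∈ LA z m (q * m), s ≠ 0 := by
      intro s hs
      have := (mem_SS.1 (mem_LA.1 hs).1).1.1
      omega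
    refine sum_labels (L := LA z m (q * m)) (TB m q M z P) K (C * 2 ^ E) R
      (fun (i : P) (s : ℕ) => if s = 0 then (1 : ℝ) else ab m q z s * |vv y z s (n + (i : ℕ))|)
      (by positivity) (fun r hr => (mem_TB hr).1) (fun r hr => card_TB hm hz2 hr)
      (fun i => if_pos rfl) (fun i s => ?_) (fun i _ => ?_) (fun i hi s hs => ?_)
    · split_ifs
      · exact zero_le_one
      · exact mul_nonneg (ab_nonneg _ _ _ _) (abs_nonneg _)
    · refine le_trans (le_of_eq ?_) (hS i)
      refine Finset.sum_congr rfl fun s hs => ?_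
      rw [if_neg (hne s hs)]
    · have h0 := hne s hs
      have h2 : ¬ Rg y z (n + (i : ℕ)) := by
        intro h3
        exact hi (Finset.mem_filter.2 ⟨Finset.mem_univ _, h3⟩)
      rw [if_neg h0]
      unfold vv
      rw [if_neg h0, if_neg h2, abs_zero, mul_zero]
  have hC0 : 0 < C := by linarith
  calc WB m q M z y P n ^ 2 = |WB m q M z y P n| ^ 2 := (sq_abs _).symm
    _ ≤ ((1 + (R.card : ℝ) * (C * 2 ^ E)) ^ K) ^ 2 := pow_le_pow_left₀ (abs_nonneg _) hW 2
    _ ≤ Real.exp ((E : ℝ) ^ 2 / 2) := num_end hE1 hRcard hC0 hE2 hK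

end Pool.Agent.Helper80.TU
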